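import Pool.Agent.H211.AD.Stm5

/-! Strict contraction at a fixed point (Earle-Hamilton trick). -/

set_option autoImplicit false

open Metric Set MeasureTheory Filter Topology

namespace Pool.Agent.H263.AD211

open Pool.Agent.H211.AD

theorem t_EH : S_EH := by
  intro Ω C ψ q hΩ hb hC hCΩ hψ hm hq hfix
  by_contra hcon
  rw [not_lt] at hcon
  obtain ⟨δ, hδ, hδΩ⟩ := hC.exists_thickening_subset_open hΩ hCΩ
  obtain ⟨R, hR0, hR⟩ : ∃ R : ℝ, 0 < R ∧ ∀ z ∈ Ω, ‖z‖ ≤ R := by
    obtain ⟨R, hR⟩ := hb.exists_norm_le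
    exact ⟨max R 1, lt_of_lt_of_le one_pos (le_max_right _ _), fun z hz => (hR z hz).trans (le_max_left _ _)⟩
  obtain ⟨r, hr, hrΩ⟩ := Metric.nhds_basis_closedBall.mem_iff.1 (hΩ.mem_nhds hq)
  set e : ℝ := δ / (2 * R + 1) with he
  have he0 : 0 < e := by positivity
  set φ : ℂ → ℂ := fun z => ψ z + (e : ℂ) * (ψ z - q) with hφ
  have hmap : MapsTo φ Ω Ω := by
    intro z hz
    apply hδΩ
    rw [mem_thickening_iff]
    refine ⟨ψ z, hm hz, ?_⟩
    rw [dist_eq_norm]
    have h1 : φ z - ψ z = (e : ℂ) * (ψ z - q) := by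
      simp only [hφ]; ring
    rw [h1, norm_mul, Complex.norm_real, Real.norm_eq_abs, abs_of_pos he0]
    have h2 : ‖ψ z - q‖ ≤ 2 * R := by
      have h3 := hR _ (hCΩ (hm hz))
      have h4 := hR _ hq
      have h5 := norm_sub_le (ψ z) q
      linarith
    have h6 : e * ‖ψ z - q‖ ≤ e * (2 * R) := mul_le_mul_of_nonneg_left h2 he0.le
    have h7 : e * (2 * R + 1) = δ := by
      rw [he]; field_simp
    nlinarith
  have hφd : DifferentiableOn ℂ φ Ω := hψ.add ((hψ.sub_const q).const_mul _)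
  have hφq : φ q = q := by
    simp only [hφ]
    rw [hfix]; simp
  have hd : HasDerivAt φ ((1 + (e : ℂ)) * deriv ψ q) q := by
    have h1 : HasDerivAt ψ (deriv ψ q) q := (hψ.differentiableAt (hΩ.mem_nhds hq)).hasDerivAt
    have h2 := h1.add ((h1.sub_const q).const_mul (e : ℂ))
    have h3 : (1 + (e : ℂ)) * deriv ψ q = deriv ψ q + (e : ℂ) * deriv ψ q := by ring
    rw [h3]
    exact h2
  have hit : ∀ k : ℕ, MapsTo φ^[k] Ω Ω ∧ DifferentiableOn ℂ φ^[k] Ω := by
    intro k
    induction k with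
    | zero => exact ⟨fun z hz => hz, differentiableOn_id⟩
    | succ k ih =>
      rw [Function.iterate_succ]
      exact ⟨ih.1.comp hmap, ih.2.comp hφd hmap⟩
  have hbound : ∀ k : ℕ, (1 + e) ^ k ≤ R / r := by
    intro k
    have h1 := (HasDerivAt.iterate q hd hφq k).deriv
    have h2 : ‖deriv φ^[k] q‖ ≤ R / r := by
      refine Complex.norm_deriv_le_of_forall_mem_sphere_norm_le hr ?_ ?_
      · refine DifferentiableOn.diffContOnCl ?_
        refine (hit k).2.mono ?_
        rw [closure_ball q hr.ne']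
        exact hrΩ
      · intro z hz
        exact hR _ ((hit k).1 (hrΩ (sphere_subset_closedBall hz)))
    rw [h1, norm_pow, norm_mul] at h2
    have h3 : ‖(1 + (e : ℂ))‖ = 1 + e := by
      have : (1 + (e : ℂ)) = ((1 + e : ℝ) : ℂ) := by push_cast; ring
      rw [this, Complex.norm_real, Real.norm_eq_abs, abs_of_pos (by linarith)]
    rw [h3] at h2
    refine le_trans (pow_le_pow_left₀ (by linarith) ?_ k) h2
    nlinarith
  obtain ⟨k, hk⟩ := pow_unbounded_of_one_lt (R / r) (by linarith : (1 : ℝ) < 1 + e)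
  exact absurd (hbound k) (not_le.2 hk)

end Pool.Agent.H263.AD211
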